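import Mathlib

/-!
# Invariant Lie brackets on Euclidean spaces: maximal abelian subspaces, conjugacy
-/

set_option autoImplicit false

namespace Pool.Agent.R783.TIG

open scoped RealInnerProductSpace

variable {V : Type*} [NormedAddCommGroup V] [InnerProductSpace ℝ V]

/-- invariant Lie bracket on a Euclidean space -/
structure IsIL (br : V →ₗ[ℝ] V →ₗ[ℝ] V) : Prop where
  self : ∀ x, br x x = 0
  jac : ∀ x y z, br x (br y z) = br (br x y) z + br y (br x z)
  inv : ∀ z x y, ⟪br z x, y⟫ = - ⟪x, br z y⟫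

variable {br : V →ₗ[ℝ] V →ₗ[ℝ] V}

lemma IsIL.skew (h : IsIL br) (x y : V) : br x y = - br y x := by
  have h1 := h.self (x + y)
  simp only [map_add, LinearMap.add_apply, h.self, zero_add, add_zero] at h1
  rw [add_comm] at h1
  exact eq_neg_of_add_eq_zero_left h1

/-- centralizer of a set -/
def Zc (br : V →ₗ[ℝ] V →ₗ[ℝ] V) (s : Set V) : Submodule ℝ V where
  carrier := {y | ∀ x ∈ s, br x y = 0}
  zero_mem' := fun x _ => map_zero _
  add_mem' := fun {y z} hy hz x hx => by rw [map_add, hy x hx, hz x hx, add_zero]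
  smul_mem' := fun c y hy x hx => by rw [map_smul, hy x hx, smul_zero]

lemma mem_Zc {s : Set V} {y : V} : y ∈ Zc br s ↔ ∀ x ∈ s, br x y = 0 := Iff.rfl

/-- maximal abelian subspace -/
def MA (br : V →ₗ[ℝ] V →ₗ[ℝ] V) (t : Submodule ℝ V) : Prop :=
  ∀ y, (∀ x ∈ t, br x y = 0) ↔ y ∈ t

variable [FiniteDimensional ℝ V]

theorem exists_MA (h : IsIL br) (P : V ≃ₗᵢ[ℝ] V) (hP : ∀ x y, P (br x y) = br (P x) (P y))
    (a0 : Submodule ℝ V) (hab : ∀ x ∈ a0, ∀ y ∈ a0, br x y = 0) (hst : ∀ x ∈ a0, P x ∈ a0) :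
    ∃ a : Submodule ℝ V, a0 ≤ a ∧ (∀ x ∈ a, P x ∈ a) ∧ MA br a := by
  let S : Set (Submodule ℝ V) :=
    {a | a0 ≤ a ∧ (∀ x ∈ a, ∀ y ∈ a, br x y = 0) ∧ (∀ x ∈ a, P x ∈ a)}
  obtain ⟨a, ⟨ha0, haab, hast⟩, hmax⟩ := (wellFounded_gt (α := Submodule ℝ V)).has_min S
    ⟨a0, le_rfl, hab, hst⟩
  refine ⟨a, ha0, hast, fun y => ⟨fun hy => ?_, fun hy x hx => haab x hx y hy⟩⟩
  by_contra hya
  -- stability
  have hmap : a.map (P.toLinearEquiv : V →ₗ[ℝ] V) = a := by
    apply Submodule.eq_of_le_of_finrank_eq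
    · rintro _ ⟨x, hx, rfl⟩; exact hast x hx
    · exact LinearEquiv.finrank_map_eq P.toLinearEquiv a
  have hast' : ∀ x ∈ a, P.symm x ∈ a := by
    intro x hx
    rw [← hmap] at hx
    obtain ⟨x', hx', rfl⟩ := hx
    have : P.symm ((P.toLinearEquiv : V →ₗ[ℝ] V) x') = x' := P.symm_apply_apply x'
    rw [this]; exact hx'
  have hPs : ∀ x y, P.symm (br x y) = br (P.symm x) (P.symm y) := by
    intro x y
    apply P.injective
    rw [hP]; simp
  have hip : ∀ x y, ⟪P x, y⟫ = ⟪x, P.symm y⟫ := by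
    intro x y
    have := P.inner_map_map x (P.symm y)
    simpa using this
  have hips : ∀ x y, ⟪P.symm x, y⟫ = ⟪x, P y⟫ := by
    intro x y
    have := P.inner_map_map (P.symm x) y
    simpa using this.symm
  let b : Submodule ℝ V := Zc br a ⊓ aᗮ
  have hbP : ∀ x ∈ b, P x ∈ b := by
    rintro x ⟨h1, h2⟩
    refine ⟨fun s hs => ?_, ?_⟩
    · have := hP (P.symm s) x
      rw [h1 _ (hast' s hs), map_zero] at this
      simpa using this.symm
    · intro s hs
      rw [← hips]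
      exact h2 _ (hast' s hs)
  have hbPs : ∀ x ∈ b, P.symm x ∈ b := by
    rintro x ⟨h1, h2⟩
    refine ⟨fun s hs => ?_, ?_⟩
    · have := hPs (P s) x
      rw [h1 _ (hast s hs), map_zero] at this
      simpa using this.symm
    · intro s hs
      rw [← hip]
      exact h2 _ (hast s hs)
  -- nontrivial
  obtain ⟨y1, hy1, y2, hy2, hyy⟩ := a.exists_add_mem_mem_orthogonal y
  have hy2b : y2 ∈ b := by
    refine ⟨fun s hs => ?_, hy2⟩
    have := hy s hs
    rw [hyy, map_add, haab s hs y1 hy1, zero_add] at this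
    exact this
  have hy20 : y2 ≠ 0 := by
    intro h0
    rw [hyy, h0, add_zero] at hya
    exact hya hy1
  have : Nontrivial b := ⟨⟨⟨y2, hy2b⟩, 0, fun h0 => hy20 (congrArg Subtype.val h0)⟩⟩
  let T0 : V →ₗ[ℝ] V := (P.toLinearEquiv : V →ₗ[ℝ] V) + (P.symm.toLinearEquiv : V →ₗ[ℝ] V)
  have hT0 : ∀ x, T0 x = P x + P.symm x := fun x => rfl
  let T : b →ₗ[ℝ] b := T0.restrict (fun x hx => b.add_mem (hbP x hx) (hbPs x hx))
  have hTs : T.IsSymmetric := by
    intro x y
    rw [Submodule.coe_inner, Submodule.coe_inner]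
    show ⟪T0 x, (y : V)⟫ = ⟪(x : V), T0 y⟫
    rw [hT0, hT0, inner_add_left, inner_add_right, hip, hips, add_comm]
  obtain ⟨u', hu'⟩ := hTs.hasEigenvalue_iSup_of_finiteDimensional.exists_hasEigenvector
  set μ : ℝ := (⨆ x : { x : b // x ≠ 0 }, RCLike.re ⟪T x, x⟫ / ‖(x : b)‖ ^ 2 : ℝ)
  have hu1 := hu'.apply_eq_smul
  have hu2 := hu'.2
  set u : V := u'.1 with hu
  have hub : u ∈ b := u'.2
  have hu0 : u ≠ 0 := fun h0 => hu2 (Subtype.ext h0)
  have hu3 : P u + P.symm u = μ • u := by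
    have := congrArg Subtype.val hu1
    exact this
  set v := P u with hv
  have hvb : v ∈ b := hbP u hub
  have hPv : P v = μ • v - u := by
    have := congrArg P hu3
    rw [map_add, map_smul, P.apply_symm_apply, ← hv] at this
    exact eq_sub_of_add_eq this
  set r := br u v with hr
  have hPr : P r = r := by
    rw [hr, hP, ← hv, hPv, map_sub, map_smul, h.self, smul_zero, zero_sub, h.skew v u, neg_neg]
  by_cases hr0 : r = 0
  · -- add u and v
    let a' : Submodule ℝ V := a ⊔ Submodule.span ℝ {u, v}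
    have hlt : a < a' := by
      refine lt_of_le_of_ne le_sup_left (fun heq => ?_)
      have hua : u ∈ a := by
        rw [heq]
        exact (le_sup_right : Submodule.span ℝ {u, v} ≤ a') (Submodule.subset_span (by simp))
      exact hu0 (inner_self_eq_zero.1 (hub.2 u hua))
    have hspan : ∀ y ∈ Submodule.span ℝ {u, v}, ∃ c d : ℝ, y = c • u + d • v := by
      intro y hy
      obtain ⟨c, d, hcd⟩ := Submodule.mem_span_pair.1 hy
      exact ⟨c, d, hcd.symm⟩
    refine hmax a' ⟨ha0.trans le_sup_left, ?_, ?_⟩ hlt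
    · intro x hx y hy
      obtain ⟨x1, hx1, x2, hx2, rfl⟩ := Submodule.mem_sup.1 hx
      obtain ⟨z1, hz1, z2, hz2, rfl⟩ := Submodule.mem_sup.1 hy
      obtain ⟨c, d, rfl⟩ := hspan x2 hx2
      obtain ⟨c', d', rfl⟩ := hspan z2 hz2
      have e1 : br x1 u = 0 := hub.1 x1 hx1
      have e2 : br x1 v = 0 := hvb.1 x1 hx1
      have e3 : br u z1 = 0 := by rw [h.skew, hub.1 z1 hz1, neg_zero]
      have e4 : br v z1 = 0 := by rw [h.skew, hvb.1 z1 hz1, neg_zero]
      have e5 : br v u = 0 := by rw [h.skew, ← hr, hr0, neg_zero]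
      simp only [map_add, map_smul, LinearMap.add_apply, LinearMap.smul_apply, haab x1 hx1 z1 hz1,
        e1, e2, e3, e4, e5, h.self, ← hr, hr0, smul_zero, add_zero]
    · intro x hx
      obtain ⟨x1, hx1, x2, hx2, rfl⟩ := Submodule.mem_sup.1 hx
      obtain ⟨c, d, rfl⟩ := hspan x2 hx2
      rw [map_add]
      refine Submodule.add_mem_sup (hast x1 hx1) ?_
      rw [map_add, map_smul, map_smul, ← hv, hPv]
      have hu' : u ∈ Submodule.span ℝ {u, v} := Submodule.subset_span (by simp)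
      have hv' : v ∈ Submodule.span ℝ {u, v} := Submodule.subset_span (by simp)
      exact Submodule.add_mem _ (Submodule.smul_mem _ _ hv')
        (Submodule.smul_mem _ _ (Submodule.sub_mem _ (Submodule.smul_mem _ _ hv') hu'))
  · -- add r
    let a' : Submodule ℝ V := a ⊔ Submodule.span ℝ {r}
    have hra : ∀ s ∈ a, br s r = 0 := by
      intro s hs
      rw [hr, h.jac, hub.1 s hs, hvb.1 s hs]
      simp
    have hlt : a < a' := by
      refine lt_of_le_of_ne le_sup_left (fun heq => ?_)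
      have hua : r ∈ a := by
        rw [heq]
        exact (le_sup_right : Submodule.span ℝ {r} ≤ a') (Submodule.subset_span (by simp))
      apply hr0
      apply inner_self_eq_zero (𝕜 := ℝ) |>.1
      have e3 : br u r = 0 := by rw [h.skew, hub.1 r hua, neg_zero]
      conv_lhs => rw [hr]
      rw [← hr, h.inv, e3, inner_zero_right, neg_zero]
    refine hmax a' ⟨ha0.trans le_sup_left, ?_, ?_⟩ hlt
    · intro x hx y hy
      obtain ⟨x1, hx1, x2, hx2, rfl⟩ := Submodule.mem_sup.1 hx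
      obtain ⟨z1, hz1, z2, hz2, rfl⟩ := Submodule.mem_sup.1 hy
      obtain ⟨c, rfl⟩ := Submodule.mem_span_singleton.1 hx2
      obtain ⟨c', rfl⟩ := Submodule.mem_span_singleton.1 hz2
      have e1 : br x1 r = 0 := hra x1 hx1
      have e3 : br r z1 = 0 := by rw [h.skew, hra z1 hz1, neg_zero]
      simp only [map_add, map_smul, LinearMap.add_apply, LinearMap.smul_apply, haab x1 hx1 z1 hz1,
        e1, e3, h.self, smul_zero, add_zero]
    · intro x hx
      obtain ⟨x1, hx1, x2, hx2, rfl⟩ := Submodule.mem_sup.1 hx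
      obtain ⟨c, rfl⟩ := Submodule.mem_span_singleton.1 hx2
      rw [map_add]
      refine Submodule.add_mem_sup (hast x1 hx1) ?_
      rw [map_smul, hPr]
      exact Submodule.smul_mem _ _ (Submodule.mem_span_singleton_self r)

/-- a maximal abelian subspace is the centralizer of one of its elements -/
theorem exists_reg (h : IsIL br) (t : Submodule ℝ V) (ht : MA br t) :
    ∃ X ∈ t, ∀ y, br X y = 0 ↔ y ∈ t := by
  obtain ⟨⟨X, hX⟩, hmin⟩ : ∃ X : t, ∀ X' : t, Module.finrank ℝ (LinearMap.ker (br X)) ≤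
      Module.finrank ℝ (LinearMap.ker (br X')) := by
    obtain ⟨X, -, hX⟩ := (measure (fun X : t => Module.finrank ℝ (LinearMap.ker (br X)))).wf.has_min
      Set.univ ⟨0, trivial⟩
    exact ⟨X, fun X' => not_lt.1 (hX X' trivial)⟩
  refine ⟨X, hX, fun Z0 => ⟨fun hZ0 => ?_, fun hy => (ht Z0).2 hy X hX⟩⟩
  by_contra hZt
  obtain ⟨B, hB, hBZ⟩ : ∃ B ∈ t, br B Z0 ≠ 0 := by
    by_contra hcon
    push Not at hcon
    exact hZt ((ht Z0).1 hcon)
  set A := br X with hA
  set D := br B with hD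
  have hcomm : ∀ y, A (D y) = D (A y) := by
    intro y
    have := h.jac X B y
    rw [(ht B).2 hB X hX] at this
    simpa using this
  set K0 := LinearMap.ker A with hK0
  have hKD : ∀ y ∈ K0, D y ∈ K0 := by
    intro y hy
    rw [LinearMap.mem_ker] at hy ⊢
    rw [hcomm, hy, map_zero]
  have hKA' : ∀ y ∈ K0ᗮ, A y ∈ K0ᗮ := by
    intro y hy w hw
    have := h.inv X w y
    rw [show br X w = 0 from hw, inner_zero_left] at this
    have h2 : ⟪w, A y⟫ = 0 := by linarith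
    exact h2
  have hKD' : ∀ y ∈ K0ᗮ, D y ∈ K0ᗮ := by
    intro y hy w hw
    have := h.inv B w y
    have h3 : ⟪br B w, y⟫ = 0 := hy _ (hKD w hw)
    have h2 : ⟪w, D y⟫ = 0 := by linarith
    exact h2
  have hdisj : ∀ y ∈ K0, y ∈ K0ᗮ → y = 0 := fun y h1 h2 => inner_self_eq_zero.1 (h2 y h1)
  obtain ⟨k, hk0, hk⟩ := (A.domRestrict K0ᗮ).exists_antilipschitzWith (by
    rw [LinearMap.ker_eq_bot']
    rintro ⟨y, hy⟩ hy0
    exact Subtype.ext (hdisj y hy0 hy))
  have hk' : ∀ y ∈ K0ᗮ, ‖y‖ ≤ k * ‖A y‖ := by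
    intro y hy
    have := hk.le_mul_dist ⟨y, hy⟩ 0
    simpa using this
  set C := ‖LinearMap.toContinuousLinearMap D‖ with hC
  have hDb : ∀ y, ‖D y‖ ≤ C * ‖y‖ := fun y => (LinearMap.toContinuousLinearMap D).le_opNorm y
  have hC0 : 0 ≤ C := norm_nonneg _
  have hk0' : (0 : ℝ) ≤ k := k.2
  set s : ℝ := 1 / (k * C + 1) with hs
  have hden : 0 < (k : ℝ) * C + 1 := by positivity
  have hs0 : 0 < s := by positivity
  have hs1 : s * C * k < 1 := by
    rw [hs, div_mul_eq_mul_div, one_mul, div_mul_eq_mul_div, div_lt_one hden]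
    linarith [mul_comm C (k : ℝ)]
  have hX' : X + s • B ∈ t := t.add_mem hX (t.smul_mem s hB)
  have hlt : LinearMap.ker (br (X + s • B)) < K0 := by
    have hbr : ∀ y, br (X + s • B) y = A y + s • D y := by
      intro y; rw [map_add, map_smul]; rfl
    have hle : ∀ v, br (X + s • B) v = 0 → A v = 0 ∧ D v = 0 := by
      intro v hv
      obtain ⟨v0, hv0, v1, hv1, hvv⟩ := K0.exists_add_mem_mem_orthogonal v
      have hv0' : A v0 = 0 := hv0
      rw [hbr, hvv, map_add, map_add, hv0', zero_add, smul_add] at hv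
      have e1 : s • D v0 ∈ K0 := K0.smul_mem s (hKD v0 hv0)
      have e2 : A v1 + s • D v1 ∈ K0ᗮ := K0ᗮ.add_mem (hKA' v1 hv1) (K0ᗮ.smul_mem s (hKD' v1 hv1))
      have e3 : s • D v0 = -(A v1 + s • D v1) := by
        rw [eq_neg_iff_add_eq_zero, ← hv]; abel
      have e4 : s • D v0 = 0 := hdisj _ e1 (by rw [e3]; exact K0ᗮ.neg_mem e2)
      have e5 : A v1 + s • D v1 = 0 := by rw [e4] at e3; exact (neg_eq_zero.1 e3.symm)
      have e6 : D v0 = 0 := (smul_eq_zero.1 e4).resolve_left hs0.ne'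
      have e7 : ‖A v1‖ ≤ s * C * k * ‖A v1‖ := by
        have : A v1 = -(s • D v1) := eq_neg_of_add_eq_zero_left e5
        calc ‖A v1‖ = s * ‖D v1‖ := by rw [this, norm_neg, norm_smul, Real.norm_of_nonneg hs0.le]
          _ ≤ s * (C * ‖v1‖) := by gcongr; exact hDb v1
          _ ≤ s * (C * (k * ‖A v1‖)) := by gcongr; exact hk' v1 hv1
          _ = _ := by ring
      have e8 : ‖A v1‖ = 0 := by
        by_contra hne
        have hpos : 0 < ‖A v1‖ := lt_of_le_of_ne (norm_nonneg _) (Ne.symm hne)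
        nlinarith
      have e9 : v1 = 0 := hdisj v1 (norm_eq_zero.1 e8) hv1
      rw [hvv, e9, add_zero]
      exact ⟨hv0', e6⟩
    refine lt_of_le_of_ne (fun v hv => (hle v hv).1) (fun heq => ?_)
    have : Z0 ∈ LinearMap.ker (br (X + s • B)) := by rw [heq]; exact hZ0
    exact hBZ (hle Z0 this).2
  have h1 := Submodule.finrank_lt_finrank_of_lt hlt
  have h2 := hmin ⟨X + s • B, hX'⟩
  exact absurd h1 (not_lt.2 h2)

section conj

variable {K : Type*} [Group K] [TopologicalSpace K] [CompactSpace K]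

theorem hunt (h : IsIL br) (A : K →* (V ≃ₗᵢ[ℝ] V))
    (hA : ∀ g x y, A g (br x y) = br (A g x) (A g y))
    (hc : ∀ x y, Continuous fun g => ⟪A g x, y⟫)
    (hder : ∀ z x y : V, ∃ c : ℝ → K, c 0 = 1 ∧
      HasDerivAt (fun s => ⟪A (c s) x, y⟫) ⟪br z x, y⟫ 0)
    (t1 t2 : Submodule ℝ V) (h1 : MA br t1) (h2 : MA br t2) :
    ∃ x : K, ∀ v, v ∈ t1 ↔ A x v ∈ t2 := by
  obtain ⟨X, hX, hXr⟩ := exists_reg h t1 h1
  obtain ⟨Y, hY, hYr⟩ := exists_reg h t2 h2
  obtain ⟨x0, -, hx0⟩ := isCompact_univ.exists_isMaxOn (Set.univ_nonempty (α := K))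
    ((hc X Y).continuousOn)
  set X' := A x0 X with hX'
  obtain ⟨c, hc0, hcd⟩ := hder (br X' Y) X' Y
  have hmax : IsLocalMax (fun s => ⟪A (c s) X', Y⟫) 0 := by
    refine Filter.Eventually.of_forall (fun s => ?_)
    have : ⟪A (c s * x0) X, Y⟫ ≤ ⟪A x0 X, Y⟫ := hx0 (Set.mem_univ (c s * x0))
    rw [map_mul] at this
    show ⟪A (c s) X', Y⟫ ≤ ⟪A (c 0) X', Y⟫
    rw [hc0, map_one]
    exact this
  have hz := hmax.hasDerivAt_eq_zero hcd
  have hz2 : br X' Y = 0 := by
    rw [h.skew, inner_neg_left, h.inv, neg_neg] at hz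
    exact inner_self_eq_zero.1 hz
  have hX't : X' ∈ t2 := (hYr X').1 (by rw [h.skew, hz2, neg_zero])
  have key : ∀ y ∈ t2, (A x0)⁻¹ y ∈ t1 := by
    intro y hy
    rw [← hXr]
    apply (A x0).injective
    rw [hA, map_zero, ← hX']
    have : A x0 ((A x0)⁻¹ y) = y := by
      have := (A x0).apply_symm_apply y
      exact this
    rw [this]
    exact (h2 y).2 hy X' hX't
  refine ⟨x0, fun v => ⟨fun hv => ?_, fun hv => ?_⟩⟩
  · rw [← hYr]
    have hY' := key Y hY
    have e : Y = A x0 ((A x0)⁻¹ Y) := ((A x0).apply_symm_apply Y).symm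
    rw [e, ← hA, (h1 v).2 hv _ hY', map_zero]
  · have := key _ hv
    have e : (A x0)⁻¹ (A x0 v) = v := (A x0).symm_apply_apply v
    rwa [e] at this

/-- every element of `K` is conjugate into the stabilizer of a maximal abelian subspace -/
theorem conj_stab (h : IsIL br) (A : K →* (V ≃ₗᵢ[ℝ] V))
    (hA : ∀ g x y, A g (br x y) = br (A g x) (A g y))
    (hc : ∀ x y, Continuous fun g => ⟪A g x, y⟫)
    (hder : ∀ z x y : V, ∃ c : ℝ → K, c 0 = 1 ∧
      HasDerivAt (fun s => ⟪A (c s) x, y⟫) ⟪br z x, y⟫ 0)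
    (t : Submodule ℝ V) (ht : MA br t) (g : K) :
    ∃ x : K, ∀ v ∈ t, A (x⁻¹ * g * x) v ∈ t := by
  obtain ⟨a, -, hast, hMA⟩ := exists_MA h (A g) (hA g) ⊥ (by simp) (by simp)
  obtain ⟨x, hx⟩ := hunt h A hA hc hder t a ht hMA
  refine ⟨x, fun v hv => ?_⟩
  rw [hx, map_mul, map_mul, map_inv]
  have e : A x (((A x)⁻¹ * A g * A x) v) = A g (A x v) := by
    show A x ((A x)⁻¹ (A g (A x v))) = A g (A x v)
    exact (A x).apply_symm_apply _
  rw [e]
  exact hast _ ((hx v).1 hv)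

theorem comm_of_stab (h : IsIL br) (A : K →* (V ≃ₗᵢ[ℝ] V))
    (hA : ∀ g x y, A g (br x y) = br (A g x) (A g y))
    (hc : ∀ x y, Continuous fun g => ⟪A g x, y⟫)
    (hder : ∀ z x y : V, ∃ c : ℝ → K, c 0 = 1 ∧
      HasDerivAt (fun s => ⟪A (c s) x, y⟫) ⟪br z x, y⟫ 0)
    (t : Submodule ℝ V) (ht : MA br t) (hst : ∀ g : K, ∀ v ∈ t, A g v ∈ t) (x y : V) :
    br x y = 0 := by
  have key : ∀ z : V, z ∈ t := by
    intro z
    obtain ⟨a, haz, -, hMA⟩ := exists_MA h (LinearIsometryEquiv.refl ℝ V) (fun _ _ => rfl)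
      (Submodule.span ℝ {z}) (by
        intro x hx y hy
        obtain ⟨c, rfl⟩ := Submodule.mem_span_singleton.1 hx
        obtain ⟨d, rfl⟩ := Submodule.mem_span_singleton.1 hy
        simp [h.self]) (fun x hx => hx)
    obtain ⟨g, hg⟩ := hunt h A hA hc hder a t hMA ht
    have hz : z ∈ a := haz (Submodule.mem_span_singleton_self z)
    have h1 := (hg z).1 hz
    have h2 := hst g⁻¹ _ h1
    rw [map_inv] at h2
    have e : (A g)⁻¹ (A g z) = z := (A g).symm_apply_apply z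
    rwa [e] at h2
  exact (ht y).2 (key y) x (key x)

lemma stab_iff (P : V ≃ₗᵢ[ℝ] V) (t : Submodule ℝ V) (h : ∀ v ∈ t, P v ∈ t) (v : V)
    (hv : P v ∈ t) : v ∈ t := by
  have hmap : t.map (P.toLinearEquiv : V →ₗ[ℝ] V) = t := by
    apply Submodule.eq_of_le_of_finrank_eq
    · rintro _ ⟨x, hx, rfl⟩; exact h x hx
    · exact LinearEquiv.finrank_map_eq P.toLinearEquiv t
  rw [← hmap] at hv
  obtain ⟨x', hx', he⟩ := hv
  have : x' = v := P.injective he
  rwa [← this]

/-- the stabilizer of a subspace -/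
def stab (A : K →* (V ≃ₗᵢ[ℝ] V)) (t : Submodule ℝ V) : Subgroup K where
  carrier := {g | ∀ v ∈ t, A g v ∈ t}
  one_mem' := fun v hv => by rw [map_one]; exact hv
  mul_mem' := fun {g h} hg hh v hv => by rw [map_mul]; exact hg _ (hh v hv)
  inv_mem' := fun {g} hg v hv => by
    refine stab_iff (A g) t hg _ ?_
    rw [map_inv]
    have : A g ((A g)⁻¹ v) = v := (A g).apply_symm_apply v
    rwa [this]

lemma stab_closed (A : K →* (V ≃ₗᵢ[ℝ] V)) (hc : ∀ x y, Continuous fun g => ⟪A g x, y⟫)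
    (t : Submodule ℝ V) : IsClosed (stab A t : Set K) := by
  have e : (stab A t : Set K) = ⋂ v ∈ t, ⋂ w ∈ tᗮ, {g | ⟪A g v, w⟫ = 0} := by
    ext g
    simp only [Set.mem_iInter]
    constructor
    · intro hg v hv w hw
      exact hw _ (hg v hv)
    · intro hg v hv
      rw [← t.orthogonal_orthogonal]
      intro w hw
      rw [real_inner_comm]
      exact hg v hv w hw
  rw [e]
  refine isClosed_iInter fun v => isClosed_iInter fun _ => isClosed_iInter fun w =>
    isClosed_iInter fun _ => ?_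
  exact isClosed_eq (hc v w) continuous_const

theorem exists_MA' (h : IsIL br) : ∃ t : Submodule ℝ V, MA br t := by
  obtain ⟨a, -, -, hMA⟩ := exists_MA h (LinearIsometryEquiv.refl ℝ V) (fun _ _ => rfl) ⊥
    (by simp) (by simp)
  exact ⟨a, hMA⟩

theorem abs_main (h : IsIL br) (A : K →* (V ≃ₗᵢ[ℝ] V))
    (hA : ∀ g x y, A g (br x y) = br (A g x) (A g y))
    (hc : ∀ x y, Continuous fun g => ⟪A g x, y⟫)
    (hder : ∀ z x y : V, ∃ c : ℝ → K, c 0 = 1 ∧
      HasDerivAt (fun s => ⟪A (c s) x, y⟫) ⟪br z x, y⟫ 0)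
    (hTIG : ∀ H : Subgroup K, IsClosed (H : Set K) → (∀ g : K, ∃ x : K, x⁻¹ * g * x ∈ H) → H = ⊤)
    (x y : V) : br x y = 0 := by
  obtain ⟨t, ht⟩ := exists_MA' h
  have hst := hTIG (stab A t) (stab_closed A hc t) (fun g => conj_stab h A hA hc hder t ht g)
  refine comm_of_stab h A hA hc hder t ht (fun g => ?_) x y
  have : g ∈ stab A t := by rw [hst]; exact Subgroup.mem_top g
  exact this

end conj

end Pool.Agent.R783.TIG
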