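import Mathlib

/-!
# Topologically invariably generated compact groups: group theory part
-/

set_option autoImplicit false

namespace Pool.Agent.R783.TIG

open Topology

/-- Jordan: a proper subgroup of a finite group does not meet all conjugacy classes -/
theorem jordan {F : Type*} [Group F] [Finite F] (M : Subgroup F)
    (h : ∀ g : F, ∃ x : F, x⁻¹ * g * x ∈ M) : M = ⊤ := by
  classical
  have := Fintype.ofFinite F
  have : Fintype (F ⧸ M) := Fintype.ofFinite _
  have : Fintype (MulAction.orbitRel.Quotient F (F ⧸ M)) := Fintype.ofFinite _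
  have h1 : (∑ g : F, Fintype.card (MulAction.fixedBy (F ⧸ M) g)) =
      Fintype.card (MulAction.orbitRel.Quotient F (F ⧸ M)) * Fintype.card F :=
    MulAction.sum_card_fixedBy_eq_card_orbits_mul_card_group F (F ⧸ M)
  have hsub : Subsingleton (MulAction.orbitRel.Quotient F (F ⧸ M)) :=
    (MulAction.pretransitive_iff_subsingleton_quotient F (F ⧸ M)).1 inferInstance
  have h2 : Fintype.card (MulAction.orbitRel.Quotient F (F ⧸ M)) ≤ 1 :=
    Fintype.card_le_one_iff_subsingleton.2 hsub
  have h3 : ∀ g : F, 1 ≤ Fintype.card (MulAction.fixedBy (F ⧸ M) g) := by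
    intro g
    obtain ⟨x, hx⟩ := h g
    refine Fintype.card_pos_iff.2 ⟨⟨(x : F ⧸ M), ?_⟩⟩
    show g • (x : F ⧸ M) = (x : F ⧸ M)
    have : g • (x : F ⧸ M) = ((g * x : F) : F ⧸ M) := rfl
    rw [this, eq_comm, QuotientGroup.eq, ← mul_assoc]
    exact hx
  have h4 : Fintype.card (MulAction.fixedBy (F ⧸ M) (1 : F)) = Fintype.card (F ⧸ M) := by
    refine Fintype.card_of_bijective (f := Subtype.val) ⟨Subtype.val_injective, fun y => ?_⟩
    exact ⟨⟨y, one_smul F y⟩, rfl⟩
  have h5 : Fintype.card (F ⧸ M) + (Fintype.card F - 1) ≤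
      ∑ g : F, Fintype.card (MulAction.fixedBy (F ⧸ M) g) := by
    rw [← Finset.add_sum_erase Finset.univ _ (Finset.mem_univ (1 : F)), h4]
    refine Nat.add_le_add_left ?_ _
    have : (Finset.univ.erase (1 : F)).card = Fintype.card F - 1 := by
      rw [Finset.card_erase_of_mem (Finset.mem_univ _), Finset.card_univ]
    rw [← this, Finset.card_eq_sum_ones]
    exact Finset.sum_le_sum fun g _ => h3 g
  have h6 : 0 < Fintype.card F := Fintype.card_pos
  rw [h1] at h5
  have h7 : Fintype.card (MulAction.orbitRel.Quotient F (F ⧸ M)) * Fintype.card F ≤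
      1 * Fintype.card F := Nat.mul_le_mul_right _ h2
  have h8 : Fintype.card (F ⧸ M) ≤ 1 := by omega
  have h9 : M.index ≤ 1 := by
    rw [Subgroup.index, Nat.card_eq_fintype_card]; exact h8
  have h10 : M.index ≠ 0 := Subgroup.index_ne_zero_of_finite
  exact Subgroup.index_eq_one.1 (by omega)

section
variable {G : Type*} [Group G] [TopologicalSpace G] [IsTopologicalGroup G]

/-- closed subgroup form of the generation condition -/
theorem tig_iff : (∀ f : G → G,
      (Subgroup.closure (Set.range (fun x : G => f x * x * (f x)⁻¹))).topologicalClosure = ⊤) ↔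
    ∀ H : Subgroup G, IsClosed (H : Set G) → (∀ g : G, ∃ x : G, x⁻¹ * g * x ∈ H) → H = ⊤ := by
  constructor
  · intro h H hH hc
    choose x hx using hc
    have h1 := h (fun g => (x g)⁻¹)
    rw [eq_top_iff, ← h1]
    refine Subgroup.topologicalClosure_minimal _ ?_ hH
    rw [Subgroup.closure_le]
    rintro _ ⟨g, rfl⟩
    simp only [inv_inv]
    exact hx g
  · intro h f
    refine h _ (Subgroup.isClosed_topologicalClosure _) (fun g => ⟨(f g)⁻¹, ?_⟩)
    refine Subgroup.le_topologicalClosure _ (Subgroup.subset_closure ⟨g, ?_⟩)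
    simp

/-- connected abelian by profinite compact groups are topologically invariably generated -/
theorem tig_of [CompactSpace G] [T2Space G] (N : Subgroup G) (hN : N.Normal)
    (hNc : IsClosed (N : Set G)) (hab : ∀ a ∈ N, ∀ b ∈ N, a * b = b * a)
    (htd : TotallyDisconnectedSpace (G ⧸ N)) (H : Subgroup G) (hH : IsClosed (H : Set G))
    (hc : ∀ g : G, ∃ x : G, x⁻¹ * g * x ∈ H) : H = ⊤ := by
  have hN3 : T3Space (G ⧸ N) := by
    have := hNc
    infer_instance
  -- image is everything
  have hsurj : ∀ q : G ⧸ N, q ∈ H.map (QuotientGroup.mk' N) := by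
    intro q
    by_contra hq
    have hcl : IsClosed ((H.map (QuotientGroup.mk' N) : Subgroup (G ⧸ N)) : Set (G ⧸ N)) := by
      rw [Subgroup.coe_map]
      exact (hH.isCompact.image QuotientGroup.continuous_mk).isClosed
    set W : Set (G ⧸ N) := {x | q * x ∉ H.map (QuotientGroup.mk' N)} with hW
    have hWo : IsOpen W := by
      have : Continuous fun x : G ⧸ N => q * x := continuous_const_mul q
      exact (hcl.isOpen_compl).preimage this
    obtain ⟨V, hV⟩ := ProfiniteGrp.exist_openNormalSubgroup_sub_open_nhds_of_one hWo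
      (by rw [hW, Set.mem_ofPred_eq, mul_one]; exact hq)
    have hfin : Finite ((G ⧸ N) ⧸ V.toSubgroup) := by
      exact Subgroup.quotient_finite_of_isOpen V.toSubgroup V.isOpen'
    have hVn : V.toSubgroup.Normal := V.isNormal'
    have hM := jordan ((H.map (QuotientGroup.mk' N)).map (QuotientGroup.mk' V.toSubgroup)) (by
      intro g
      obtain ⟨g1, rfl⟩ := QuotientGroup.mk'_surjective V.toSubgroup g
      obtain ⟨g2, rfl⟩ := QuotientGroup.mk'_surjective N g1
      obtain ⟨x, hx⟩ := hc g2
      refine ⟨QuotientGroup.mk' V.toSubgroup (QuotientGroup.mk' N x), ?_⟩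
      rw [← map_inv, ← map_inv, ← map_mul, ← map_mul, ← map_mul, ← map_mul]
      exact Subgroup.mem_map_of_mem _ (Subgroup.mem_map_of_mem _ hx))
    have hq2 : QuotientGroup.mk' V.toSubgroup q ∈
        (H.map (QuotientGroup.mk' N)).map (QuotientGroup.mk' V.toSubgroup) := by
      rw [hM]; exact Subgroup.mem_top _
    obtain ⟨h, hh, he⟩ := Subgroup.mem_map.1 hq2
    have hv : q⁻¹ * h ∈ V.toSubgroup := QuotientGroup.eq.1 he.symm
    have := hV hv
    rw [hW, Set.mem_ofPred_eq] at this
    apply this
    rw [mul_inv_cancel_left]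
    exact hh
  have hHN : ∀ g : G, ∃ h ∈ H, h⁻¹ * g ∈ N := by
    intro g
    obtain ⟨h, hh, he⟩ := Subgroup.mem_map.1 (hsurj (g : G ⧸ N))
    exact ⟨h, hh, QuotientGroup.eq.1 he⟩
  have hNH : N ≤ H := by
    intro n hn
    obtain ⟨x, hx⟩ := hc n
    obtain ⟨h, hh, hm⟩ := hHN x
    have h1 : h⁻¹ * n * h ∈ N := by
      have := hN.conj_mem n hn h⁻¹
      rwa [inv_inv] at this
    have h2 := hab _ h1 _ hm
    have h3 : x⁻¹ * n * x = h⁻¹ * n * h := by
      have e : x⁻¹ * n * x = (h⁻¹ * x)⁻¹ * ((h⁻¹ * n * h) * (h⁻¹ * x)) := by group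
      rw [e, h2]; group
    rw [h3] at hx
    have h4 := H.mul_mem (H.mul_mem hh hx) (H.inv_mem hh)
    have h5 : h * (h⁻¹ * n * h) * h⁻¹ = n := by group
    rwa [h5] at h4
  rw [eq_top_iff]
  intro g _
  obtain ⟨h, hh, hm⟩ := hHN g
  have := H.mul_mem hh (hNH hm)
  rwa [mul_inv_cancel_left] at this

/-- the quotient by the identity component is totally disconnected -/
theorem quot_td (N : Subgroup G) (hN : (N : Set G) = connectedComponent (1 : G)) :
    TotallyDisconnectedSpace (G ⧸ N) := by
  rw [totallyDisconnectedSpace_iff_connectedComponent_singleton]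
  intro q
  obtain ⟨a, rfl⟩ := QuotientGroup.mk_surjective q
  have hfib : ∀ t : G ⧸ N, IsConnected ((QuotientGroup.mk : G → G ⧸ N) ⁻¹' {t}) := by
    intro t
    obtain ⟨b, rfl⟩ := QuotientGroup.mk_surjective t
    have e : ((QuotientGroup.mk : G → G ⧸ N) ⁻¹' {(b : G ⧸ N)}) = (fun x => b * x) '' (N : Set G) := by
      ext x
      simp only [Set.mem_preimage, Set.mem_singleton_iff, Set.mem_image, SetLike.mem_coe]
      rw [eq_comm, QuotientGroup.eq]
      constructor
      · intro hx; exact ⟨b⁻¹ * x, hx, by group⟩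
      · rintro ⟨y, hy, rfl⟩; rwa [inv_mul_cancel_left]
    rw [e, hN]
    exact isConnected_connectedComponent.image _ (continuous_const_mul b).continuousOn
  have h1 := (QuotientGroup.isQuotientMap_mk (N := N)).isCoinducing.preimage_connectedComponent hfib a
  ext y
  obtain ⟨b, rfl⟩ := QuotientGroup.mk_surjective y
  simp only [Set.mem_singleton_iff]
  constructor
  · intro hb
    have h2 : b ∈ connectedComponent a := by rw [← h1]; exact hb
    rw [eq_comm, QuotientGroup.eq]
    have h3 : a⁻¹ * b ∈ connectedComponent (1 : G) := by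
      have h4 := (continuous_const_mul a⁻¹).image_connectedComponent_subset a ⟨b, h2, rfl⟩
      simpa using h4
    rw [← hN] at h3
    exact h3
  · intro hb
    rw [hb]; exact mem_connectedComponent

theorem normal_comp : (Subgroup.connectedComponentOfOne G).Normal where
  conj_mem n hn g := by
    have h1 : Continuous fun x : G => g * x * g⁻¹ := by fun_prop
    have h2 := h1.image_connectedComponent_subset 1 ⟨n, hn, rfl⟩
    simp only [mul_one, mul_inv_cancel] at h2
    exact h2

end

end Pool.Agent.R783.TIG
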