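import Pool.Agent.TH77.UnitsLG
import Pool.Agent.R783.TIG.Abs

/-!
# The Lie algebra of a compact linear group with the trace form
-/

set_option autoImplicit false
set_option linter.unusedSectionVars false

namespace Pool.Agent.R783.TIG

open scoped RealInnerProductSpace Matrix.Norms.Frobenius
open Matrix Filter Topology Pool.Agent.TH77

variable {ι : Type} [Fintype ι] [DecidableEq ι]

/-- real inner product of complex matrices: real part of the trace form -/
@[instance_reducible]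
noncomputable def ipM : InnerProductSpace ℝ (Matrix ι ι ℂ) where
  inner A B := (Matrix.trace (Aᴴ * B)).re
  norm_sq_eq_re_inner A := by
    rw [frobenius_norm_def, ← Real.rpow_natCast, ← Real.rpow_mul (by positivity)]
    norm_num
    simp only [Matrix.trace, Matrix.diag, Matrix.mul_apply, Matrix.conjTranspose_apply,
      Complex.re_sum]
    rw [Finset.sum_comm]
    refine Finset.sum_congr rfl fun i _ => Finset.sum_congr rfl fun j _ => ?_
    rw [← Complex.normSq_eq_norm_sq, Complex.normSq_apply]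
    simp
  conj_inner_symm A B := by
    have h : (Bᴴ * A) = (Aᴴ * B)ᴴ := by simp
    rw [h, Matrix.trace_conjTranspose]
    simp
  add_left A B C := by
    rw [Matrix.conjTranspose_add, Matrix.add_mul, Matrix.trace_add, Complex.add_re]
  smul_left A B r := by
    rw [Matrix.conjTranspose_smul, Matrix.smul_mul, Matrix.trace_smul]
    simp

attribute [local instance] ipM

lemma inner_def (A B : Matrix ι ι ℂ) : ⟪A, B⟫ = (Matrix.trace (Aᴴ * B)).re := rfl

section gen
variable {𝔸 : Type*} [NormedRing 𝔸] [NormedAlgebra ℝ 𝔸] [CompleteSpace 𝔸]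

lemma hasDerivAt_conj (X Y : 𝔸) :
    HasDerivAt (fun t : ℝ => NormedSpace.exp (t • X) * Y * NormedSpace.exp ((-t) • X))
      (X * Y - Y * X) 0 := by
  have h1 : HasDerivAt (fun u : ℝ => NormedSpace.exp (u • X)) (NormedSpace.exp ((0:ℝ) • X) * X) 0 :=
    hasDerivAt_exp_smul_const X 0
  have h2 : HasDerivAt (fun u : ℝ => NormedSpace.exp (u • (-X)))
      (NormedSpace.exp ((0:ℝ) • (-X)) * (-X)) 0 := hasDerivAt_exp_smul_const (-X) 0
  rw [zero_smul, NormedSpace.exp_zero, one_mul] at h1 h2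
  have h3 := (h1.mul_const Y).mul h2
  simp only [zero_smul, NormedSpace.exp_zero, mul_one, one_mul] at h3
  have e : (X * Y - Y * X) = X * Y + Y * -X := by rw [mul_neg, sub_eq_add_neg]
  rw [e]
  refine h3.congr_of_eventuallyEq (Eventually.of_forall fun t => ?_)
  simp only [neg_smul, smul_neg]
  rfl

variable (K : Subgroup 𝔸ˣ) (hK : IsClosed (K : Set 𝔸ˣ))

/-- the Lie algebra -/
noncomputable def lie : Submodule ℝ 𝔸 := (LG.units 𝔸).lie K hK

variable {K hK}

lemma mem_lie {X : 𝔸} : X ∈ lie K hK ↔ ∀ t : ℝ, expU (t • X) ∈ K := Iff.rfl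

lemma exp_eq [FiniteDimensional ℝ 𝔸] {X Y : 𝔸}
    (h : ∀ t : ℝ, NormedSpace.exp (t • X) = NormedSpace.exp (t • Y)) : X = Y := by
  refine (LG.units 𝔸).eq_of_forall_exp fun t => ?_
  exact Units.ext (h t)

lemma lie_star [FiniteDimensional ℝ 𝔸] [StarRing 𝔸] [ContinuousStar 𝔸] [StarModule ℝ 𝔸]
    (hu : ∀ g ∈ K, star (g : 𝔸) * g = 1) {X : 𝔸}
    (hX : X ∈ lie K hK) : star X = -X := by
  refine exp_eq fun t => ?_
  have h1 := hu _ (mem_lie.1 hX t)
  rw [expU_val] at h1
  have h2 : star (NormedSpace.exp (t • X)) = NormedSpace.exp (t • star X) := by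
    letI : NormedAlgebra ℚ 𝔸 := NormedAlgebra.restrictScalars ℚ ℝ 𝔸
    rw [NormedSpace.star_exp, star_smul]; simp
  have h3 : NormedSpace.exp (t • X) * NormedSpace.exp (-(t • X)) = 1 := by
    rw [← expR_add (Commute.refl _).neg_right, add_neg_cancel, NormedSpace.exp_zero]
  rw [← h2, smul_neg]
  calc star (NormedSpace.exp (t • X)) = star (NormedSpace.exp (t • X)) *
      (NormedSpace.exp (t • X) * NormedSpace.exp (-(t • X))) := by rw [h3, mul_one]
    _ = _ := by rw [← mul_assoc, h1, one_mul]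

lemma expU_conj (g : 𝔸ˣ) (X : 𝔸) (t : ℝ) :
    expU (t • ((g : 𝔸) * X * (↑g⁻¹ : 𝔸))) = g * expU (t • X) * g⁻¹ := by
  ext1
  rw [Units.val_mul, Units.val_mul, expU_val, expU_val]
  have : t • ((g : 𝔸) * X * (↑g⁻¹ : 𝔸)) = (g : 𝔸) * (t • X) * (↑g⁻¹ : 𝔸) := by
    rw [mul_smul_comm, smul_mul_assoc]
  rw [this]
  letI : NormedAlgebra ℚ 𝔸 := NormedAlgebra.restrictScalars ℚ ℝ 𝔸
  exact NormedSpace.exp_units_conj _ _

lemma lie_conj {g : 𝔸ˣ} (hg : g ∈ K) {X : 𝔸} (hX : X ∈ lie K hK) :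
    (g : 𝔸) * X * (↑g⁻¹ : 𝔸) ∈ lie K hK := by
  intro t
  show expU _ ∈ K
  rw [expU_conj]
  exact K.mul_mem (K.mul_mem hg (hX t)) (K.inv_mem hg)

lemma expU_inv (X : 𝔸) : (expU X)⁻¹ = expU (-X) := by
  ext1; rfl

lemma lie_bracket [FiniteDimensional ℝ 𝔸] {X Y : 𝔸} (hX : X ∈ lie K hK) (hY : Y ∈ lie K hK) :
    X * Y - Y * X ∈ lie K hK := by
  have h1 := hasDerivAt_iff_tendsto_slope_zero.1 (hasDerivAt_conj X Y)
  have hcl : IsClosed ((lie K hK : Submodule ℝ 𝔸) : Set 𝔸) := Submodule.closed_of_finiteDimensional _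
  refine hcl.mem_of_tendsto h1 (Eventually.of_forall fun t => ?_)
  refine Submodule.smul_mem _ _ (Submodule.sub_mem _ ?_ ?_)
  · have := lie_conj (mem_lie.1 hX (0 + t)) hY
    rw [expU_inv, expU_val, expU_val, ← neg_smul] at this
    exact this
  · simpa using hY

end gen

end Pool.Agent.R783.TIG
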