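import Pool.Agent.R783.TIG.Inst

/-!
# Compact unitary groups: conjugates of the stabilizer of a maximal abelian subalgebra
-/

set_option autoImplicit false
set_option linter.unusedSectionVars false

namespace Pool.Agent.R783.TIG

open scoped RealInnerProductSpace Matrix.Norms.Frobenius
open Matrix Filter Topology Pool.Agent.TH77

variable {ι : Type} [Fintype ι] [DecidableEq ι]

attribute [local instance] ipM

noncomputable instance : CompleteSpace (Matrix ι ι ℂ) := FiniteDimensional.complete ℝ _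

variable (K : Subgroup (Matrix ι ι ℂ)ˣ) (hK : IsClosed (K : Set (Matrix ι ι ℂ)ˣ))

/-- the bracket of the Lie algebra -/
noncomputable def brk : lie K hK →ₗ[ℝ] lie K hK →ₗ[ℝ] lie K hK :=
  LinearMap.mk₂ ℝ (fun X Y => ⟨X.1 * Y.1 - Y.1 * X.1, lie_bracket X.2 Y.2⟩)
    (fun X Y Z => by ext1; simp [add_mul, mul_add]; abel)
    (fun c X Y => by ext1; simp [smul_sub])
    (fun X Y Z => by ext1; simp [add_mul, mul_add]; abel)
    (fun c X Y => by ext1; simp [smul_sub])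

variable {K hK}

lemma brk_coe (X Y : lie K hK) : ((brk K hK X Y : lie K hK) : Matrix ι ι ℂ) = X.1 * Y.1 - Y.1 * X.1 :=
  rfl

lemma star_coe (hu : ∀ g ∈ K, star (g : Matrix ι ι ℂ) * g = 1) (X : lie K hK) :
    (X.1)ᴴ = - X.1 := lie_star hu X.2

lemma isIL (hu : ∀ g ∈ K, star (g : Matrix ι ι ℂ) * g = 1) : IsIL (brk K hK) where
  self X := by ext1; rw [brk_coe]; simp
  jac X Y Z := by
    ext1
    rw [brk_coe, brk_coe, Submodule.coe_add, brk_coe, brk_coe, brk_coe, brk_coe]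
    noncomm_ring
  inv Z X Y := by
    rw [Submodule.coe_inner, Submodule.coe_inner, inner_def, inner_def, brk_coe, brk_coe]
    have hZ := star_coe hu Z
    have h1 : (Z.1 * X.1 - X.1 * Z.1)ᴴ = Z.1 * (X.1)ᴴ - (X.1)ᴴ * Z.1 := by
      rw [Matrix.conjTranspose_sub, Matrix.conjTranspose_mul, Matrix.conjTranspose_mul, hZ]
      rw [Matrix.mul_neg, Matrix.neg_mul]; abel
    rw [h1]
    have h2 : Matrix.trace ((Z.1 * (X.1)ᴴ - (X.1)ᴴ * Z.1) * Y.1) =
        - Matrix.trace ((X.1)ᴴ * (Z.1 * Y.1 - Y.1 * Z.1)) := by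
      rw [Matrix.sub_mul, Matrix.mul_sub, Matrix.trace_sub, Matrix.trace_sub, Matrix.mul_assoc,
        Matrix.trace_mul_comm Z.1, Matrix.mul_assoc, Matrix.mul_assoc]
      ring
    rw [h2, Complex.neg_re]

/-- the adjoint action on the Lie algebra -/
noncomputable def adL (g : K) : lie K hK →ₗ[ℝ] lie K hK where
  toFun X := ⟨(g.1 : Matrix ι ι ℂ) * X.1 * (↑(g.1)⁻¹ : Matrix ι ι ℂ), lie_conj g.2 X.2⟩
  map_add' X Y := by ext1; simp [mul_add, add_mul]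
  map_smul' c X := by ext1; simp

lemma adL_coe (g : K) (X : lie K hK) :
    ((adL g X : lie K hK) : Matrix ι ι ℂ) = (g.1 : Matrix ι ι ℂ) * X.1 * (↑(g.1)⁻¹ : Matrix ι ι ℂ) := rfl

lemma adL_one : adL (hK := hK) (1 : K) = LinearMap.id := by
  ext1 X; ext1; rw [adL_coe]; simp

lemma adL_mul (g h : K) : adL (hK := hK) (g * h) = (adL g).comp (adL h) := by
  ext1 X; ext1; rw [LinearMap.comp_apply, adL_coe, adL_coe, adL_coe]
  simp [mul_assoc]

lemma inv_eq (hu : ∀ g ∈ K, star (g : Matrix ι ι ℂ) * g = 1) (g : K) :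
    (↑(g.1)⁻¹ : Matrix ι ι ℂ) = (g.1 : Matrix ι ι ℂ)ᴴ := by
  have h1 := hu g.1 g.2
  have h2 : (g.1 : Matrix ι ι ℂ) * (↑(g.1)⁻¹ : Matrix ι ι ℂ) = 1 := Units.mul_inv _
  calc (↑(g.1)⁻¹ : Matrix ι ι ℂ) = (star (g.1 : Matrix ι ι ℂ) * g.1) * (↑(g.1)⁻¹ : Matrix ι ι ℂ) := by
        rw [h1, one_mul]
    _ = star (g.1 : Matrix ι ι ℂ) := by rw [mul_assoc, h2, mul_one]

lemma adL_norm (hu : ∀ g ∈ K, star (g : Matrix ι ι ℂ) * g = 1) (g : K) (X : lie K hK) :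
    ‖adL g X‖ = ‖X‖ := by
  have h0 : ∀ Y : lie K hK, ‖Y‖ ^ 2 = (Matrix.trace ((Y.1)ᴴ * Y.1)).re := by
    intro Y
    rw [← inner_def, ← Submodule.coe_inner, real_inner_self_eq_norm_sq]
  have h1 : ‖adL g X‖ ^ 2 = ‖X‖ ^ 2 := by
    rw [h0, h0, adL_coe, inv_eq hu]
    have h3 : (g.1 : Matrix ι ι ℂ)ᴴ * g.1 = 1 := hu g.1 g.2
    have h4 : ((g.1 : Matrix ι ι ℂ) * X.1 * (g.1 : Matrix ι ι ℂ)ᴴ)ᴴ * ((g.1 : Matrix ι ι ℂ) * X.1 * (g.1 : Matrix ι ι ℂ)ᴴ)
        = (g.1 : Matrix ι ι ℂ) * ((X.1)ᴴ * X.1 * (g.1 : Matrix ι ι ℂ)ᴴ) := by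
      rw [Matrix.conjTranspose_mul, Matrix.conjTranspose_mul, Matrix.conjTranspose_conjTranspose]
      calc _ = (g.1 : Matrix ι ι ℂ) * ((X.1)ᴴ * ((g.1 : Matrix ι ι ℂ)ᴴ * g.1) * X.1 * (g.1 : Matrix ι ι ℂ)ᴴ) := by
            simp only [Matrix.mul_assoc]
        _ = _ := by rw [h3, Matrix.mul_one]
    rw [h4, Matrix.trace_mul_comm, Matrix.mul_assoc, h3, Matrix.mul_one]
  exact (sq_eq_sq₀ (norm_nonneg _) (norm_nonneg _)).1 h1

/-- the adjoint action by isometries -/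
noncomputable def adI (hu : ∀ g ∈ K, star (g : Matrix ι ι ℂ) * g = 1) (g : K) :
    lie K hK ≃ₗᵢ[ℝ] lie K hK where
  toLinearEquiv := LinearEquiv.ofLinearMap (adL g) (adL g⁻¹)
    (by rw [← adL_mul, mul_inv_cancel, adL_one]) (by rw [← adL_mul, inv_mul_cancel, adL_one])
  norm_map' X := adL_norm hu g X

lemma adI_apply (hu : ∀ g ∈ K, star (g : Matrix ι ι ℂ) * g = 1) (g : K) (X : lie K hK) :
    adI hu g X = adL g X := rfl

/-- the adjoint representation -/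
noncomputable def adH (hu : ∀ g ∈ K, star (g : Matrix ι ι ℂ) * g = 1) :
    K →* (lie K hK ≃ₗᵢ[ℝ] lie K hK) where
  toFun := adI hu
  map_one' := by
    ext1 X; rw [adI_apply, adL_one]; rfl
  map_mul' g h := by
    ext1 X; rw [adI_apply, adL_mul]; rfl

lemma adH_coe (hu : ∀ g ∈ K, star (g : Matrix ι ι ℂ) * g = 1) (g : K) (X : lie K hK) :
    ((adH hu g X : lie K hK) : Matrix ι ι ℂ) = (g.1 : Matrix ι ι ℂ) * X.1 * (↑(g.1)⁻¹ : Matrix ι ι ℂ) := rfl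

lemma adH_br (hu : ∀ g ∈ K, star (g : Matrix ι ι ℂ) * g = 1) (g : K) (X Y : lie K hK) :
    adH hu g (brk K hK X Y) = brk K hK (adH hu g X) (adH hu g Y) := by
  ext1
  rw [adH_coe, brk_coe, brk_coe, adH_coe, adH_coe]
  have h2 : (↑(g.1)⁻¹ : Matrix ι ι ℂ) * (g.1 : Matrix ι ι ℂ) = 1 := Units.inv_mul _
  have key : ∀ A B : Matrix ι ι ℂ, (g.1 : Matrix ι ι ℂ) * (A * B) * (↑(g.1)⁻¹ : Matrix ι ι ℂ) =
      (g.1 : Matrix ι ι ℂ) * A * (↑(g.1)⁻¹ : Matrix ι ι ℂ) *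
      ((g.1 : Matrix ι ι ℂ) * B * (↑(g.1)⁻¹ : Matrix ι ι ℂ)) := by
    intro A B
    calc _ = (g.1 : Matrix ι ι ℂ) * A * 1 * B * (↑(g.1)⁻¹ : Matrix ι ι ℂ) := by
          rw [Matrix.mul_one]; simp only [Matrix.mul_assoc]
      _ = _ := by rw [← h2]; simp only [Matrix.mul_assoc]
  rw [Matrix.mul_sub, Matrix.sub_mul, key, key]

lemma adH_cont (hu : ∀ g ∈ K, star (g : Matrix ι ι ℂ) * g = 1) (X Y : lie K hK) :
    Continuous fun g : K => ⟪adH hu g X, Y⟫ := by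
  simp only [Submodule.coe_inner, adH_coe]
  have h : Continuous (fun g : K => (g.1 : Matrix ι ι ℂ) * X.1 * (↑(g.1)⁻¹ : Matrix ι ι ℂ)) :=
    ((Units.continuous_val.comp continuous_subtype_val).mul continuous_const).mul
      (Units.continuous_coe_inv.comp continuous_subtype_val)
  exact h.inner continuous_const

lemma adH_der (hu : ∀ g ∈ K, star (g : Matrix ι ι ℂ) * g = 1) (Z X Y : lie K hK) :
    ∃ c : ℝ → K, c 0 = 1 ∧
      HasDerivAt (fun s => ⟪adH hu (c s) X, Y⟫) ⟪brk K hK Z X, Y⟫ 0 := by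
  refine ⟨fun s => ⟨expU (s • Z.1), mem_lie.1 Z.2 s⟩, ?_, ?_⟩
  · ext1; ext1
    show NormedSpace.exp ((0 : ℝ) • Z.1) = 1
    rw [zero_smul, NormedSpace.exp_zero]
  · simp only [Submodule.coe_inner, adH_coe]
    have h1 := (hasDerivAt_conj Z.1 X.1).inner ℝ (hasDerivAt_const (0 : ℝ) Y.1)
    rw [inner_zero_right, zero_add] at h1
    have e : ∀ s : ℝ, (↑(expU (s • Z.1))⁻¹ : Matrix ι ι ℂ) = NormedSpace.exp ((-s) • Z.1) := by
      intro s; rw [expU_inv, expU_val, neg_smul]; rfl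
    simp only [expU_val, e]
    exact h1

/-- if no proper closed subgroup of the compact unitary group `K` meets all conjugacy classes
then the Lie algebra of `K` is abelian -/
theorem lie_comm (hc : IsCompact (K : Set (Matrix ι ι ℂ)ˣ))
    (hu : ∀ g ∈ K, star (g : Matrix ι ι ℂ) * g = 1)
    (hTIG : ∀ H : Subgroup K, IsClosed (H : Set K) → (∀ g : K, ∃ x : K, x⁻¹ * g * x ∈ H) → H = ⊤)
    (X Y : Matrix ι ι ℂ) (hX : X ∈ lie K hK) (hY : Y ∈ lie K hK) : X * Y = Y * X := by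
  have : CompactSpace K := isCompact_iff_compactSpace.1 hc
  have h := abs_main (isIL hu) (adH hu) (adH_br hu) (adH_cont hu) (adH_der hu) hTIG ⟨X, hX⟩ ⟨Y, hY⟩
  have h2 := congrArg Subtype.val h
  rw [brk_coe] at h2
  exact sub_eq_zero.1 h2

theorem gen_comm (hc : IsCompact (K : Set (Matrix ι ι ℂ)ˣ))
    (hu : ∀ g ∈ K, star (g : Matrix ι ι ℂ) * g = 1)
    (hTIG : ∀ H : Subgroup K, IsClosed (H : Set K) → (∀ g : K, ∃ x : K, x⁻¹ * g * x ∈ H) → H = ⊤)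
    (a b : (Matrix ι ι ℂ)ˣ) (ha : a ∈ (LG.units (Matrix ι ι ℂ)).gen (lie K hK))
    (hb : b ∈ (LG.units (Matrix ι ι ℂ)).gen (lie K hK)) : a * b = b * a := by
  set S : Set (Matrix ι ι ℂ)ˣ := (LG.units (Matrix ι ι ℂ)).exp '' (lie K hK) with hS
  have h1 : Subgroup.closure S ≤ Subgroup.centralizer S := by
    rw [Subgroup.closure_le]
    rintro _ ⟨X, hX, rfl⟩
    rw [SetLike.mem_coe, Subgroup.mem_centralizer_iff]
    rintro _ ⟨Y, hY, rfl⟩
    have hXY := lie_comm hc hu hTIG X Y hX hY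
    ext1
    have hcm : Commute Y X := hXY.symm
    have e1 := expR_add (𝔸 := Matrix ι ι ℂ) hcm
    have e2 := expR_add (𝔸 := Matrix ι ι ℂ) hcm.symm
    rw [add_comm] at e2
    exact e1.symm.trans e2
  have ha' : a ∈ Subgroup.centralizer S := h1 ha
  rw [← Subgroup.centralizer_closure] at ha'
  exact (Subgroup.mem_centralizer_iff.1 ha' b hb).symm

end Pool.Agent.R783.TIG
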