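import Pool.Agent.R783.TIG.Grp
import Pool.Agent.R783.TIG.Mat
import Pool.Agent.TH264.Bridge.PW

/-!
# The identity component of a topologically invariably generated compact group is abelian
-/

set_option autoImplicit false

namespace Pool.Agent.R783.TIG

open Matrix Filter Topology Pool.Agent.TH77
open scoped Matrix.Norms.Frobenius

theorem comp_comm {G : Type*} [Group G] [TopologicalSpace G] [IsTopologicalGroup G]
    [CompactSpace G] [T2Space G]
    (hT : ∀ H : Subgroup G, IsClosed (H : Set G) → (∀ g : G, ∃ x : G, x⁻¹ * g * x ∈ H) → H = ⊤)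
    (a b : G) (ha : a ∈ Subgroup.connectedComponentOfOne G)
    (hb : b ∈ Subgroup.connectedComponentOfOne G) : a * b = b * a := by
  by_contra hab
  have hc : a * b * a⁻¹ * b⁻¹ ≠ 1 := by
    intro h
    apply hab
    have : a * b = (a * b * a⁻¹ * b⁻¹) * (b * a) := by group
    rw [this, h, one_mul]
  obtain ⟨n0, ρ0, hρ0, hρ0c⟩ := Pool.Agent.TH264.Bridge.PWaux1.exists_rep_ne_one G _ hc
  obtain ⟨ι, _, _, ρ, hρ, hρc⟩ := Pool.Agent.TH264.Bridge.PWaux2.PW_unit G _ n0 ρ0 hρ0 hρ0c
  let φ : G →* (Matrix ι ι ℂ)ˣ := (Unitary.toUnits (R := Matrix ι ι ℂ)).comp ρ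
  have hφ : Continuous φ := by
    rw [Units.continuous_iff]
    constructor
    · exact continuous_subtype_val.comp hρ
    · have : Continuous fun g => (ρ g⁻¹ : Matrix ι ι ℂ) :=
        continuous_subtype_val.comp (hρ.comp continuous_inv)
      refine this.congr fun g => ?_
      rw [map_inv]; rfl
  have hcomp : IsCompact (φ.range : Set (Matrix ι ι ℂ)ˣ) := by
    rw [MonoidHom.coe_range]
    exact isCompact_range hφ
  have hcl : IsClosed (φ.range : Set (Matrix ι ι ℂ)ˣ) := hcomp.isClosed
  have hu : ∀ g ∈ φ.range, star (g : Matrix ι ι ℂ) * g = 1 := by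
    rintro _ ⟨g, rfl⟩
    exact Unitary.coe_star_mul_self (ρ g)
  have hTIG : ∀ H : Subgroup φ.range, IsClosed (H : Set φ.range) →
      (∀ g : φ.range, ∃ x : φ.range, x⁻¹ * g * x ∈ H) → H = ⊤ := by
    intro H hH hconj
    have h1 : Continuous φ.rangeRestrict := hφ.subtype_mk _
    have h2 := hT (H.comap φ.rangeRestrict) (hH.preimage h1) (by
      intro g
      obtain ⟨x, hx⟩ := hconj (φ.rangeRestrict g)
      obtain ⟨y, rfl⟩ := φ.rangeRestrict_surjective x
      refine ⟨y, ?_⟩
      rw [Subgroup.mem_comap, map_mul, map_mul, map_inv]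
      exact hx)
    rw [eq_top_iff]
    intro x _
    obtain ⟨y, rfl⟩ := φ.rangeRestrict_surjective x
    have : y ∈ H.comap φ.rangeRestrict := by rw [h2]; exact Subgroup.mem_top y
    exact this
  have hgen : ∀ n ∈ Subgroup.connectedComponentOfOne G,
      φ n ∈ (LG.units (Matrix ι ι ℂ)).gen (lie φ.range hcl) := by
    intro n hn
    have hpc : PreconnectedSpace (connectedComponent (1 : G)) :=
      isPreconnected_iff_preconnectedSpace.1 isPreconnected_connectedComponent
    exact LG.path_mem_gen (LG.units (Matrix ι ι ℂ)) φ.range hcl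
      (X := connectedComponent (1 : G)) (c := fun x => φ x.1)
      (hφ.comp continuous_subtype_val) (fun t => ⟨t.1, rfl⟩)
      (x₀ := ⟨1, mem_connectedComponent⟩) (map_one φ) ⟨n, hn⟩
  have hcomm := gen_comm hcomp hu hTIG (φ a) (φ b) (hgen a ha) (hgen b hb)
  apply hρc
  have h3 : φ (a * b * a⁻¹ * b⁻¹) = 1 := by
    rw [map_mul, map_mul, map_mul, hcomm, map_inv, map_inv]
    group
  have h4 := congrArg (Units.val) h3
  exact Subtype.ext h4

end Pool.Agent.R783.TIG
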